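import Pool.Agent.H5.PtakC

set_option autoImplicit false

open Metric Finset Polynomial Filter Topology Pool.Agent.H5.Ptak

namespace Pool.Agent.Results.MP_a1a577_an.Worst

/-- `f(T)` for `f` holomorphic on the unit disc and `T` of spectral radius `< 1`:
the Taylor series of `f` at `0` evaluated at `T`. -/
noncomputable def fc {n : ℕ} (f : ℂ → ℂ)
    (T : EuclideanSpace ℂ (Fin n) →L[ℂ] EuclideanSpace ℂ (Fin n)) :
    EuclideanSpace ℂ (Fin n) →L[ℂ] EuclideanSpace ℂ (Fin n) :=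
  ∑' k : ℕ, (iteratedDeriv k f 0 / (k.factorial : ℂ)) • T ^ k

/-- operators on `n`-dimensional complex Hilbert space -/
abbrev Op (n : ℕ) : Type := EuclideanSpace ℂ (Fin n) →L[ℂ] EuclideanSpace ℂ (Fin n)

/-- the operator norm -/
noncomputable def nrm {n : ℕ} (T : Op n) : ℝ := ‖T‖

/-- `p(T) = 0` -/
def Kills {n : ℕ} (p : ℂ[X]) (T : Op n) : Prop := aeval T p = 0

lemma pow_bd {ι A : Type} [NormedRing A] [NormedAlgebra ℂ A] {r ρ : ℝ} (h0 : 0 < r) (h1 : r < ρ)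
    (h2 : ρ < 1) (s : Finset ι) : ∃ K : ℝ, 0 ≤ K ∧ ∀ (a : ι → ℂ) (T S : A), (∀ i, ‖a i‖ ≤ r) →
      ‖T‖ ≤ 1 → aeval T (∏ i ∈ s, (X - C (a i))) * S = 0 → ∀ k, ‖T ^ k * S‖ ≤ K * ρ ^ k * ‖S‖ := by
  classical
  induction s using Finset.induction_on with
  | empty => exact ⟨0, le_rfl, fun a T S _ _ h k => by simp_all⟩
  | insert j s hj ih =>
    obtain ⟨K, hK, ih⟩ := ih
    have hd : 0 < ρ - r := by linarith
    refine ⟨1 + 2 * K / (ρ - r), by positivity, fun a T S ha hT h k => ?_⟩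
    rw [prod_insert hj, mul_comm (X - C _), map_mul, mul_assoc] at h
    have h3 := ih a T _ ha hT h
    have h4 : aeval T (X - C (a j)) * S = T * S - a j • S := by
      simp [sub_mul, Algebra.algebraMap_eq_smul_one]
    rw [h4] at h3
    have h5 : ‖T * S - a j • S‖ ≤ 2 * ‖S‖ := by
      have e1 := norm_sub_le (T * S) (a j • S)
      have e2 := norm_mul_le T S
      rw [norm_smul] at e1
      nlinarith [ha j, norm_nonneg S]
    have hρ : 0 < ρ := by linarith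
    induction k with
    | zero =>
      have : 0 ≤ 2 * K / (ρ - r) * ‖S‖ := by positivity
      simp only [pow_zero, one_mul, mul_one]
      linarith
    | succ k ihk =>
      have e1 : T ^ (k + 1) * S = a j • (T ^ k * S) + T ^ k * (T * S - a j • S) := by
        rw [mul_sub, mul_smul_comm, pow_succ, mul_assoc]
        abel
      have e2 : ‖a j • (T ^ k * S)‖ ≤ r * ((1 + 2 * K / (ρ - r)) * ρ ^ k * ‖S‖) := by
        rw [norm_smul]
        exact mul_le_mul (ha j) ihk (norm_nonneg _) h0.le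
      have e3 : ‖T ^ k * (T * S - a j • S)‖ ≤ K * ρ ^ k * (2 * ‖S‖) :=
        (h3 k).trans (mul_le_mul_of_nonneg_left h5 (by positivity))
      have e4 : (1 + 2 * K / (ρ - r)) * ρ ^ (k + 1) * ‖S‖ =
          r * ((1 + 2 * K / (ρ - r)) * ρ ^ k * ‖S‖) + K * ρ ^ k * (2 * ‖S‖) +
            (ρ - r) * ρ ^ k * ‖S‖ := by
        field_simp
        ring
      have e5 : 0 ≤ (ρ - r) * ρ ^ k * ‖S‖ := by positivity
      rw [e1, e4]
      linarith [norm_add_le (a j • (T ^ k * S)) (T ^ k * (T * S - a j • S))]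

lemma roots_fin {n : ℕ} (hn : 1 ≤ n) (p : ℂ[X]) (hp : p.natDegree = n) :
    ∃ a : Fin n → ℂ, (∀ i, p.IsRoot (a i)) ∧ p = C p.leadingCoeff * pp a := by
  have hs : p.Splits := IsAlgClosed.splits p
  have h0 : p ≠ 0 := by
    rintro rfl
    simp at hp
    omega
  have hc : Fintype.card p.roots = n := by
    rw [Multiset.card_coe, ← hs.natDegree_eq_card_roots, hp]
  let e := Fintype.equivFinOfCardEq hc
  refine ⟨fun i => (e.symm i : ℂ), fun i => (mem_roots h0).1 (Multiset.coe_mem (x := e.symm i)), ?_⟩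
  conv_lhs => rw [hs.eq_prod_roots]
  rw [pp, e.symm.prod_comp (fun x : p.roots => X - C (x : ℂ)),
    ← Multiset.map_univ p.roots (fun y => X - C y)]
  rfl

theorem main (n : ℕ) (hn : 1 ≤ n) (r : ℝ) (h0 : 0 < r) (h1 : r < 1) (f : ℂ → ℂ)
    (hf : DifferentiableOn ℂ f (ball 0 1)) :
    ∃ a : ℂ, ‖a‖ = r ∧ ∃ T₀ : EuclideanSpace ℂ (Fin n) →L[ℂ] EuclideanSpace ℂ (Fin n),
      ‖T₀‖ ≤ 1 ∧ aeval T₀ ((X - C a) ^ n) = 0 ∧
      ∀ p : ℂ[X], p.natDegree = n → (∀ z, p.IsRoot z → ‖z‖ ≤ r) →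
        ∀ T : EuclideanSpace ℂ (Fin n) →L[ℂ] EuclideanSpace ℂ (Fin n),
          ‖T‖ ≤ 1 → aeval T p = 0 → ‖fc f T‖ ≤ ‖fc f T₀‖ := by
  have : Nonempty (Fin n) := ⟨⟨0, hn⟩⟩
  set ρ := (r + 1) / 2 with hρ
  have hρ0 : 0 < ρ := by positivity
  obtain ⟨K, hK, hb⟩ := pow_bd (A := EuclideanSpace ℂ (Fin n) →L[ℂ] EuclideanSpace ℂ (Fin n))
    h0 (show r < ρ by linarith) (show ρ < 1 by linarith) (univ : Finset (Fin n))
  set c : ℕ → ℂ := fun k => iteratedDeriv k f 0 / (k.factorial : ℂ) with hc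
  set u : ℕ → ℝ := fun k => ‖c k‖ * (K * ρ ^ k) with hu
  have hsum : Summable u := by
    have e1 := (Complex.hasSum_taylorSeries_on_ball hf (z := (ρ : ℂ)) (by
      simp only [mem_ball_zero_iff, Complex.norm_real, Real.norm_of_nonneg hρ0.le]
      linarith)).summable
    refine ((summable_norm_iff.2 e1).mul_left K).congr fun k => ?_
    simp only [hu, hc, sub_zero, smul_eq_mul, norm_mul, norm_pow, Complex.norm_real,
      Real.norm_of_nonneg hρ0.le, div_eq_mul_inv]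
    ring
  have hbd : ∀ (a : Fin n → ℂ) (T : EuclideanSpace ℂ (Fin n) →L[ℂ] EuclideanSpace ℂ (Fin n)),
      (∀ i, ‖a i‖ ≤ r) → ‖T‖ ≤ 1 → aeval T (pp a) = 0 → ∀ k, ‖c k • T ^ k‖ ≤ u k := by
    intro a T ha hT h k
    have e1 := hb a T 1 ha hT (by rw [mul_one]; exact h) k
    rw [mul_one] at e1
    rw [norm_smul]
    refine mul_le_mul_of_nonneg_left (e1.trans ?_) (norm_nonneg _)
    exact mul_le_of_le_one_right (by positivity) ContinuousLinearMap.norm_id_le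
  set g : ℕ → ℂ[X] := fun N => ∑ k ∈ range N, monomial k (c k) with hg
  have htail : ∀ (a : Fin n → ℂ) (T : EuclideanSpace ℂ (Fin n) →L[ℂ] EuclideanSpace ℂ (Fin n)),
      (∀ i, ‖a i‖ ≤ r) → ‖T‖ ≤ 1 → aeval T (pp a) = 0 →
      ∀ N, ‖fc f T - aeval T (g N)‖ ≤ ∑' k, u (k + N) := by
    intro a T ha hT h N
    have e1 := hbd a T ha hT h
    have e2 := (Summable.of_norm_bounded hsum e1).sum_add_tsum_nat_add N
    have e3 : aeval T (g N) = ∑ k ∈ range N, c k • T ^ k := by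
      simp [hg, aeval_monomial, Algebra.algebraMap_eq_smul_one]
    have e4 : fc f T = ∑' k, c k • T ^ k := rfl
    rw [e4, e3, ← e2, add_sub_cancel_left]
    exact tsum_of_norm_bounded ((summable_nat_add_iff N).2 hsum).hasSum fun k => e1 _
  have hpp : ∀ a : ℂ, pp (fun _ : Fin n => a) = (X - C a) ^ n := fun a => by simp [pp]
  set S : Set (ℂ × (EuclideanSpace ℂ (Fin n) →L[ℂ] EuclideanSpace ℂ (Fin n))) :=
    (sphere 0 r ×ˢ closedBall 0 1) ∩ {x | (x.2 - x.1 • 1) ^ n = 0} with hS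
  have hmem : ∀ x, x ∈ S ↔ ‖x.1‖ = r ∧ ‖x.2‖ ≤ 1 ∧ aeval x.2 (pp fun _ : Fin n => x.1) = 0 := by
    intro x
    simp [hS, hpp, Algebra.algebraMap_eq_smul_one, and_assoc]
  have hcomp : IsCompact S :=
    ((isCompact_sphere _ _).prod (isCompact_closedBall _ _)).inter_right
      (isClosed_eq (by fun_prop) continuous_const)
  have hcont : ContinuousOn (fun x : ℂ × (EuclideanSpace ℂ (Fin n) →L[ℂ]
      EuclideanSpace ℂ (Fin n)) => ‖fc f x.2‖) S := by
    refine ContinuousOn.norm (continuousOn_tsum (fun k => by fun_prop) hsum fun k x hx => ?_)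
    obtain ⟨e1, e2, e3⟩ := (hmem x).1 hx
    exact hbd _ _ (fun _ => e1.le) e2 e3 k
  have hmodel : ∀ a : ℂ, ‖a‖ = r → ∃ T, (a, T) ∈ S ∧
      ∀ g : ℂ[X], FB (fun _ : Fin n => a) g ‖aeval T g‖ := by
    intro a ha
    obtain ⟨T, e1, e2, e3⟩ := model (a := fun _ : Fin n => a) (fun _ => ha.trans_lt h1)
      (Fintype.card_fin n)
    exact ⟨T, (hmem _).2 ⟨ha, e1, e2⟩, e3⟩
  obtain ⟨T1, hT1, -⟩ := hmodel r (by simp [h0.le])
  obtain ⟨⟨a0, T0⟩, hx0, hmax⟩ := hcomp.exists_isMaxOn ⟨_, hT1⟩ hcont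
  obtain ⟨e1, e2, e3⟩ := (hmem _).1 hx0
  refine ⟨a0, e1, T0, e2, hpp a0 ▸ e3, fun p hp hr T hT hpT => ?_⟩
  obtain ⟨a, ha, hpa⟩ := roots_fin hn p hp
  have ha' : ∀ i, ‖a i‖ ≤ r := fun i => hr _ (ha i)
  have hTa : aeval T (pp a) = 0 := by
    have hl : p.leadingCoeff ≠ 0 := leadingCoeff_ne_zero.2 (by
      rintro rfl
      simp at hp
      omega)
    rw [hpa, map_mul, aeval_C, ← Algebra.smul_def] at hpT
    exact (smul_eq_zero.1 hpT).resolve_left hl
  have key : ∀ N, ‖fc f T‖ ≤ ‖fc f T0‖ + 2 * ∑' k, u (k + N) := by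
    intro N
    have hε : 0 ≤ ∑' k, u (k + N) := tsum_nonneg fun k => by positivity
    have f1 := upper (fun i => (ha' i).trans_lt h1) T hTa hT (g N) (‖fc f T0‖ + ∑' k, u (k + N))
      (by positivity) (FB_extremal h0 h1 _ _ (fun b hb => ?_) a ha')
    · have f2 := htail a T ha' hT hTa N
      linarith [norm_sub_norm_le (fc f T) (aeval T (g N))]
    · obtain ⟨T', hT', hF⟩ := hmodel b hb
      obtain ⟨-, f3, f4⟩ := (hmem _).1 hT'
      have f5 := htail _ T' (fun _ => hb.le) f3 f4 N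
      have f6 := isMaxOn_iff.1 hmax _ hT'
      dsimp only at f6
      have f7 := norm_sub_norm_le (aeval T' (g N)) (fc f T')
      rw [norm_sub_rev] at f7
      intro q' q hq' hq
      refine (hF _ q' q hq' hq).trans (mul_le_mul_of_nonneg_right (by linarith) ?_)
      rw [Bf_re fun _ => hb.trans_lt h1, Bf_re fun _ => hb.trans_lt h1]
      exact add_nonneg (Real.circleAverage_nonneg_of_nonneg fun _ _ => by positivity)
        (Real.circleAverage_nonneg_of_nonneg fun _ _ => by positivity)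
  have hlim := ((tendsto_sum_nat_add u).const_mul 2).const_add ‖fc f T0‖
  rw [mul_zero, add_zero] at hlim
  exact ge_of_tendsto' hlim key

/-- For every `f` holomorphic on the unit disc, some polynomial `(z - a)^n` with `|a| = r` is a
worst polynomial. -/
theorem result (n : ℕ) (hn : 1 ≤ n) (r : ℝ) (h0 : 0 < r) (h1 : r < 1) (f : ℂ → ℂ)
    (hf : DifferentiableOn ℂ f (ball 0 1)) :
    ∃ a : ℂ, ‖a‖ = r ∧ ∃ T₀ : Op n, nrm T₀ ≤ 1 ∧ Kills ((X - C a) ^ n) T₀ ∧
      ∀ p : ℂ[X], p.natDegree = n → (∀ z, p.IsRoot z → ‖z‖ ≤ r) →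
        ∀ T : Op n, nrm T ≤ 1 → Kills p T → nrm (fc f T) ≤ nrm (fc f T₀) :=
  main n hn r h0 h1 f hf

end Pool.Agent.Results.MP_a1a577_an.Worst
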